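import Pool.Agent.K1H49.PL.Gen

/-! Project PL, general case: the induction step. -/

set_option autoImplicit false

namespace Pool.Agent.K1H60.PLG

open Pool.Agent.K1H49.PL

universe u

theorem tpl_eq {M : Type u} {X ι K I : Type} {m : ℕ} {dg : K → ℕ} (x : X → M) (w : I → ι → M)
    (s : K → Nd → ι → M) (E : Nd → I) (E1 : ∀ k, LN (dgo (m + 1) dg k) → Nd) :
    tpl x (fun (o : Option K) (η : Nd) => o.elim (w (E η)) (fun k => s k η)) E1 =
      tpx (a := m + 1) (dg := dg) x w s (fun η => E (E1 none η)) (fun k => E1 (some k)) := by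
  funext v
  rcases v with v | ⟨⟨_ | k, η⟩, i⟩
  · rfl
  · rfl
  · rfl

theorem t_STP (h1 : S_IDX) (h2 : S_LEN.{u}) (h3 : S_CHN.{u}) (h4 : S_EXN.{u}) : S_STP.{u} := by
  intro M Y hsat hec hsm ι K _ _ m dg hPH X x t
  haveI := hsm (X ⊕ ((Σ k, LN (dgo (m + 1) dg k)) × ι))
  obtain ⟨I, lt, hBT, hcol⟩ := h1 (Set (Shrink.{0} {S : Set
    (X ⊕ ((Σ k, LN (dgo (m + 1) dg k)) × ι) → M) // Y.D S}))
  -- a maximal good assignment
  have hempty : GoodF Y lt x t (∅ : FF M X ι K I (m + 1) dg) := by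
    obtain ⟨w, s, hws⟩ := h2 Y hsat lt hBT x t
    refine ⟨fun q hq => absurd hq (Set.notMem_empty _), fun q hq => absurd hq (Set.notMem_empty _),
      fun q hq => absurd hq (Set.notMem_empty _), w, s, hws,
      fun q hq => absurd hq (Set.notMem_empty _)⟩
  obtain ⟨F, -, hF⟩ := zorn_subset_nonempty {F : FF M X ι K I (m + 1) dg | GoodF Y lt x t F}
    (by
      intro C hC hchain hne
      exact ⟨⋃₀ C, h3 Y hsat lt x t C hchain hne hC, fun F hF => Set.subset_sUnion_of_mem hF⟩)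
    ∅ hempty
  have hG : GoodF Y lt x t F := hF.1
  have hdom : ∀ π : I, ∃ θ, (π, θ) ∈ F := by
    by_contra hcon
    push Not at hcon
    obtain ⟨π, hπ⟩ := hcon
    obtain ⟨π0, hπ0, hmin⟩ := hBT.wf.has_min {π : I | ∀ θ, (π, θ) ∉ F} ⟨π, hπ⟩
    obtain ⟨θ, hθ⟩ := h4 Y hsat hec lt hBT x t hPH F hG π0 hπ0 (by
      intro ρ d hρ
      by_contra hne
      push Not at hne
      exact hmin ρ hne ⟨d, hρ⟩)
    have hle : insert (π0, θ) F ≤ F := hF.2 hθ (Set.subset_insert _ _)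
    exact hπ0 θ (hle (Set.mem_insert _ _))
  choose θ hθ using hdom
  obtain ⟨w, s, hR1, hR2⟩ := hG.cons
  obtain ⟨E, hE, c, hc⟩ := hcol fun π => {z | ((equivShrink {S : Set
    (X ⊕ ((Σ k, LN (dgo (m + 1) dg k)) × ι) → M) // Y.D S}).symm z).1 ∈ θ π}
  have hD : ∀ π S, S ∈ θ π → Y.D S := by
    intro π S hS
    obtain ⟨v, hv⟩ := hG.tp (π, θ π) (hθ π)
    have hv' : θ π = {S | Y.D S ∧ v ∈ S} := hv
    rw [hv'] at hS
    exact hS.1
  have hconst : ∀ π π' : Nd, θ (E π) ⊆ θ (E π') := by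
    intro π π' S hS
    have hz : (equivShrink {S : Set
        (X ⊕ ((Σ k, LN (dgo (m + 1) dg k)) × ι) → M) // Y.D S}) ⟨S, hD _ _ hS⟩ ∈
        {z | ((equivShrink {S : Set
        (X ⊕ ((Σ k, LN (dgo (m + 1) dg k)) × ι) → M) // Y.D S}).symm z).1 ∈ θ (E π)} := by
      have h8 : ((equivShrink {S : Set
        (X ⊕ ((Σ k, LN (dgo (m + 1) dg k)) × ι) → M) // Y.D S}).symm
        ((equivShrink {S : Set
        (X ⊕ ((Σ k, LN (dgo (m + 1) dg k)) × ι) → M) // Y.D S}) ⟨S, hD _ _ hS⟩)).1 ∈ θ (E π) := by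
        rw [Equiv.symm_apply_apply]
        exact hS
      exact h8
    have h5 := (hc π).trans (hc π').symm
    rw [Set.ext_iff] at h5
    have h6 := (h5 _).1 hz
    have h7 : ((equivShrink {S : Set
        (X ⊕ ((Σ k, LN (dgo (m + 1) dg k)) × ι) → M) // Y.D S}).symm
        ((equivShrink {S : Set
        (X ⊕ ((Σ k, LN (dgo (m + 1) dg k)) × ι) → M) // Y.D S}) ⟨S, hD _ _ hS⟩)).1 ∈ θ (E π') := h6
    rw [Equiv.symm_apply_apply] at h7
    exact h7
  obtain ⟨v0, hv0⟩ := hG.tp (E [], θ (E [])) (hθ (E []))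
  have hv0' : θ (E []) = {S | Y.D S ∧ v0 ∈ S} := hv0
  refine ⟨fun o η => o.elim (w (E η)) (fun k => s k η), ?_, ?_⟩
  · intro n S hS h E' hE'
    have h5 := hR1 n S hS h (fun η => E (E' none η)) (fun k => E' (some k))
      (fun η η' d hd => hE _ _ d (hE' none η η' d hd)) (fun k => hE' (some k))
    have h6 : (Sum.elim x (fun p : Option K × LN n × ι =>
        (p.1.elim (w (E (E' p.1 p.2.1))) (fun k => s k (E' p.1 p.2.1)) : ι → M) p.2.2)) =
        Sum.elim x (fun p : Option K × LN n × ι =>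
          p.1.elim (w (E (E' none p.2.1)) p.2.2) (fun k => s k (E' (some k) p.2.1) p.2.2)) := by
      funext v
      rcases v with v | ⟨_ | k, η, i⟩
      · rfl
      · rfl
      · rfl
    show (Sum.elim x (fun p : Option K × LN n × ι =>
        (p.1.elim (w (E (E' p.1 p.2.1))) (fun k => s k (E' p.1 p.2.1)) : ι → M) p.2.2)) ∈ S
    rw [h6]
    exact h5
  · have key : ∀ E1 : ∀ k, LN (dgo (m + 1) dg k) → Nd, (∀ k, Pt ndl _ (E1 k)) →
        ∀ S ∈ θ (E []), tpl x (fun (o : Option K) (η : Nd) =>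
          o.elim (w (E η)) (fun k => s k η)) E1 ∈ S := by
      intro E1 hE1 S hS
      rw [tpl_eq]
      refine hR2 (E (E1 none (rt (m + 1))), θ (E (E1 none (rt (m + 1))))) (hθ _) _ _
        (fun η η' d hd => hE _ _ d (hE1 none η η' d hd)) (fun k => hE1 (some k)) rfl S ?_
      exact hconst [] _ hS
    intro S hS E1 E2 hE1 hE2 hmem
    by_cases hv : v0 ∈ S
    · exact key E2 hE2 S (by rw [hv0']; exact ⟨hS, hv⟩)
    · obtain ⟨S', hS', hvS', hdis⟩ := hec S hS v0 hv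
      exact absurd (key E1 hE1 S' (by rw [hv0']; exact ⟨hS', hvS'⟩)) (hdis _ hmem)

end Pool.Agent.K1H60.PLG
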